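import Pool.Agent.R318.DP.C

/-! # Moments of the traces of Frobenius for cyclic covers of affine space (K3 surfaces, …) with coefficients in sparse
families given by digits

Let `ℓ` be a prime and let `f` be a polynomial in `m` variables with integer coefficients `a j` and exponents `e j`, where
all the monomials of degree at most `n` occur among the exponents (`Full n e`; other monomials are allowed). For a prime
`p` let `pts` be the number of the solutions of `w ^ ℓ = f(x₁, …, x_m)` modulo `p`, and let
`aN = (pts - p ^ m) / p ^ (m / 2)`.

Example: `ℓ = 2`, `m = 2`, `n = 6`, and the monomials are those of degree at most `6`. For a general `f` the double cover of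
the plane branched along the sextic curve `f = 0` is a K3 surface of degree `2`; the trace of Frobenius on the primitive
part (of dimension `21`) of `H²(1)` is `aN + O(p ^ (- 1 / 2))`, the error coming from the line at infinity. In the same
way, for even `m` and even `n` the number `aN` is up to `O(p ^ (- 1 / 2))` the trace of Frobenius on the primitive part of
`H ^ m (m / 2)` of the double cover of the projective space of dimension `m` branched along a general hypersurface of
degree `n`.

The coefficients are `a j = c j + κ j v j`, where `v j` are independent random integers with `k` independent digits in
base `b`, whose distributions are arbitrary, except that two independent copies of a digit differ with a probability of at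
least `η`. For instance the `i`-th digit of `v j` may be any element of a set `D j i` of at least two digits, with equal
probabilities (the integers without some digit, all the integers below `b ^ k`).

Theorem: with probability at least `1 - C log X / X`, for EVERY `x ≥ X` with `x ^ W ≤ b ^ k` almost all primes `p` up to `x`
satisfy `|aN| ≤ B` (for varieties as above this is Deligne's theorem, which is not used), and the averages of `aN ^ i` over
these primes are close to `cM ℓ i` for all `1 ≤ i < 2 ⌊(n + 1) / 2⌋`. For `ℓ = 2` this is the `i`-th moment of the standard
normal law, `(i - 1)!!` for even `i` and `0` for odd `i`: these are the moments of the trace for the orthogonal group. For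
K3 surfaces of degree `2` the first five moments are `0, 1, 0, 3, 0`, as for `O(21)`.

Proof: modulo `p`, the values of a random polynomial with all the monomials of degree at most `n` at `n + 1` points of the
affine space are independent, so the moments over all polynomials modulo `p` are those of sums of `(n + 1)`-wise
independent variables; large values are removed with the help of the moment of order `2 ⌊(n + 1) / 2⌋`; the second moment
of the sum over the primes is computed by the equidistribution of the families modulo products of two primes; all `x` are
treated with a geometric grid.

Definitions used: `Full`, `pts`, `aN`, `okS`, `CloseM` in `Pool.Agent.R318.DP` (files `B.lean`, `C.lean`); `cM`, `G`, `PrV`,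
`Dist`, `arrays`, `wt`, `dval` in `Pool.Agent.R318.ST` (files `Fin1.lean`, `Dig.lean`, `Mom.lean`).

Library: helper459 (second moments for families given by digits), helper730 (prime number theorem in progressions). -/

set_option autoImplicit false

namespace Pool.Agent.Results.MP_32ceeb_nt.CoversOfAffineSpace

open Pool.Agent.R318.ST Pool.Agent.R318.DP

/-- **Theorem.** Let `b ≥ 2` and `η > 0`. There is `W` such that for all primes `ℓ`, all `m, n ≥ 1`, all finite lists `e` of
exponents that contain all exponents of degree at most `n` in `m` variables, all nonzero integers `κ j` and all `ε > 0` there
are `B`, `C` and `X₀` with the following property. For all `k`, all `X ≥ X₀`, all integers `c j` and all distributions `u j`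
of `k` digits in base `b` such that two independent copies of a digit differ with probability at least `η` (`Dist`), the
polynomial `f` with the exponents `e j` and the coefficients `c j + κ j v j`, where `v j` are independent integers with
independent digits with the distributions `u j`, satisfies, with an exceptional probability of at most `C log X / X`: for
EVERY `x ≥ X` with `x ^ W ≤ b ^ k`, all the primes up to `x` but a proportion of at most `ε` satisfy `|aN| ≤ B`, and for all
`1 ≤ i < 2 ⌊(n + 1) / 2⌋` the average of `aN ^ i` over these primes is `cM ℓ i` up to `ε`. -/
theorem result (b : ℕ) (hb : 2 ≤ b) (η : ℝ) (hη : 0 < η) : ∃ W : ℕ, 1 ≤ W ∧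
    ∀ ℓ m n : ℕ, ℓ.Prime → 1 ≤ m → 1 ≤ n → ∀ (d : ℕ) (e : Fin d → Fin m → ℕ), Full n e →
    ∀ κ : Fin d → ℤ, (∀ j, κ j ≠ 0) → ∀ ε : ℝ, 0 < ε →
    ∃ (B C : ℝ) (X₀ : ℕ), ∀ k X : ℕ, X₀ ≤ X → ∀ (c : Fin d → ℤ) (u : Fin d → ℕ → ℕ → ℝ),
    (∀ j, Dist b k η (u j)) →
    PrV b k u (fun g => ¬ CloseM ℓ n e ε B X W (b ^ k) (fun j => c j + κ j * (dval b (g j) : ℕ))) ≤ C * (Real.log X / X) :=
  main b hb η hη

end Pool.Agent.Results.MP_32ceeb_nt.CoversOfAffineSpace
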