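import Pool.Agent.R318.ST.Fin2

/-! # Joint moments of the traces of Frobenius for products of curves `y ^ ℓ = f(x)` with coefficients in sparse families
given by digits

Let `ℓ` be a prime and let `f_1, …, f_r` be polynomials of degree `n` with integer coefficients. The coefficients of `f_i`
are the numbers `part a i j`, `0 ≤ j ≤ n`, for a vector `a` with `r (n + 1)` entries. For a prime `p ≠ ℓ` such that all the
`f_i` modulo `p` are squarefree of degree `n`, let `a1 ℓ (part a i) p = (points - p) / √p`, where `points` is the number of
the solutions `(x, y)` of `y ^ ℓ = f_i(x)` modulo `p`. If `ℓ` does not divide `n`, the smooth projective model `C_i` of the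
curve has one more point, and `- a1` is the normalised trace of Frobenius on its `H ^ 1`. By Künneth's formula, for even `i`
the trace of Frobenius on `H ^ i (C_1 × … × C_r) (i / 2)` is the sum over the subsets `J` of even cardinality `≤ i` of
`binom (r - |J|) ((i - |J|) / 2) * ∏ j ∈ J, a1 (C_j)`, so its powers are combinations of the monomials below.

The coefficients are `a j = c j + κ j v j`, where `v j` are independent random integers with `k` independent digits in
base `b`, whose distributions are arbitrary, except that two independent copies of a digit differ with a probability of at
least `η`. For instance the `i`-th digit of `v j` may be any element of a set `D j i` of at least two digits, with equal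
probabilities (the integers without some digit, all the integers below `b ^ k`).

Theorem: with probability at least `1 - C log X / X`, for EVERY `x ≥ X` with `x ^ W ≤ b ^ k` almost all primes up to `x`
are good for all the curves, and the averages of the monomials `∏ i, a1 (C_i) ^ m i` over these primes are close to
`cJ ℓ m` for all exponents `m i < 2 ⌊(n + 1) / 2⌋`, not all zero. For `ℓ = 2` this is the product of the moments of the
standard normal law, `(m i - 1)!!` for even `m i` and `0` for odd `m i`: for `n = 2 g + 1` these are the joint moments of
the traces for the Haar measure of `USp(2 g) ^ r`.

Proof: modulo `p`, the values of a random polynomial with `n + 1` coefficients at `n + 1` points are independent, so the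
moments over all polynomials modulo `p` are those of sums of `m`-wise independent variables; the polynomials with a square
factor are removed with the help of a higher moment; Weil's bound gives that the terms are bounded; the second moment of
the sum over the primes is computed by the equidistribution of the families modulo products of two primes; all `x` are
treated with a geometric grid.

Definitions used, all in `Pool.Agent.R318.ST` (files `Fin2.lean`, `Fin1.lean`, `Dig.lean`, `Mom.lean`): `part`, `goodsA`,
`cJ`, `CloseJ`, `points`, `a1`, `GoodP`, `PrV`, `Dist`, `arrays`, `wt`, `dval`, `G`.

Library: helper459 (second moments for families given by digits), helper435 (Weil's bound), helper730 (prime number theorem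
in progressions, expansion in characters). -/

set_option autoImplicit false

namespace Pool.Agent.Results.MP_32ceeb_nt.ProductsOfCurves

open Pool.Agent.R318.ST

/-- **Theorem.** Let `b ≥ 2` and `η > 0`. There is `W` such that for all primes `ℓ`, all `r, n ≥ 1`, all nonzero integers
`κ j` and all `ε > 0` there are `C` and `X₀` with the following property. For all `k`, all `X ≥ X₀`, all integers `c j` and
all distributions `u j` of `k` digits in base `b` such that two independent copies of a digit differ with probability at
least `η` (`Dist`), the `r` polynomials of degree `n` with the `r (n + 1)` coefficients `c j + κ j v j`, where `v j` are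
independent integers with independent digits with the distributions `u j`, satisfy, with an exceptional probability of at
most `C log X / X`: for EVERY `x ≥ X` with `x ^ W ≤ b ^ k`, all the primes up to `x` but a proportion of at most `ε` are
good for all the curves, and for all exponents `m i < 2 ⌊(n + 1) / 2⌋`, not all zero, the average of `∏ i, a1 (C_i) ^ m i`
over these primes is `cJ ℓ m` up to `ε`. -/
theorem result (b : ℕ) (hb : 2 ≤ b) (η : ℝ) (hη : 0 < η) : ∃ W : ℕ, 1 ≤ W ∧
    ∀ (ℓ r n : ℕ), ℓ.Prime → 1 ≤ r → 1 ≤ n → ∀ κ : Fin (r * (n + 1)) → ℤ, (∀ j, κ j ≠ 0) → ∀ ε : ℝ, 0 < ε →
    ∃ (C : ℝ) (X₀ : ℕ), ∀ k X : ℕ, X₀ ≤ X → ∀ (c : Fin (r * (n + 1)) → ℤ) (u : Fin (r * (n + 1)) → ℕ → ℕ → ℝ),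
    (∀ j, Dist b k η (u j)) →
    PrV b k u (fun g => ¬ CloseJ ℓ r n ε X W (b ^ k) (fun j => c j + κ j * (dval b (g j) : ℕ))) ≤ C * (Real.log X / X) :=
  all_vec b hb η hη

end Pool.Agent.Results.MP_32ceeb_nt.ProductsOfCurves
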