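import Pool.Agent.R385.TL.Cls

/-!
# The Sato–Tate conjecture for even-degree cohomology and the frequency of large values

`G` is a compact group (the Sato–Tate group `ST^i(X)`), `μ` a probability measure on it (the Haar
measure), `S` a finite set of primes, and `x p`, for the primes `p ∉ S`, an element of the conjugacy
class `x_p`.  For a continuous class function `f ≥ 0` on `G` let `U_f(t) = ∑ f(x_p) cos(t log p) / p`,
over the primes `p ∉ S`.

`RareF κ U`: for some `c > 0` and all large `V`, the set where `U ≥ V` has, in every interval of length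
at least `T₀(V)`, a proportion at most `exp(-exp(c exp(V / κ)))`.  `FreqF κ U`: the proportion is at
least this, for some `c > 0`.  `TailExponent κ U`: `RareF κ' U` for all `κ' > κ`, and `FreqF κ' U` for all
`κ' < κ`.
-/

set_option autoImplicit false

namespace Pool.Agent.Results.MP_32ceeb_nt.TailExponents

open MeasureTheory Filter Topology
open Pool.Agent.R385.TL

section
variable {G : Type} [Group G] [TopologicalSpace G] [MeasurableSpace G]

/-- The measures `ν_x` converge weakly to the image of `μ` on the space of the conjugacy classes. -/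
def Equidistributed (S : Finset ℕ) (x : ℕ → G) (μ : Measure G) : Prop :=
  ∀ f ∈ ClassFunctions G, Tendsto (averageQ S fun p => f (x p)) atTop (𝓝 (∫ g, f g ∂μ))

/-- The same for the logarithmic averages: `∑_{p ≤ X} f(x_p) / p` divided by `log log X` tends to the
integral of `f`. -/
def LogEquidistributed (S : Finset ℕ) (x : ℕ → G) (μ : Measure G) : Prop :=
  ∀ f ∈ ClassFunctions G, Tendsto (fun X : ℕ => primeSumQ S (fun p => f (x p)) X /
    Real.log (Real.log X)) atTop (𝓝 (∫ g, f g ∂μ))

/-- For all continuous class functions `f ≥ 0` the tail exponent of `U_f` is the integral of `f`. -/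
def HaarTails (S : Finset ℕ) (x : ℕ → G) (μ : Measure G) : Prop :=
  ∀ f ∈ ClassFunctions G, (∀ g, 0 ≤ f g) →
    TailExponent (∫ g, f g ∂μ) (cosSeriesQ S fun p => f (x p))

end

theorem result (G : Type) [Group G] [TopologicalSpace G] [IsTopologicalGroup G] [CompactSpace G]
    [MeasurableSpace G] [BorelSpace G] (μ : Measure G) [IsProbabilityMeasure μ] (S : Finset ℕ)
    (x : ℕ → G) :
    (∀ f ∈ ClassFunctions G, (∀ g, 0 ≤ f g) →
      (∀ᵐ t : ℝ, Tendsto (fun X : ℕ => cosSumQ S (fun p => f (x p)) X t) atTop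
        (𝓝 (cosSeriesQ S (fun p => f (x p)) t))) ∧
      ∀ κ : ℝ, 0 < κ →
        (RareF κ (cosSeriesQ S fun p => f (x p)) ↔ ∃ C : ℝ, ∀ X : ℕ, 3 ≤ X →
          primeSumQ S (fun p => f (x p)) X ≤ κ * Real.log (Real.log X) + C) ∧
        (FreqF κ (cosSeriesQ S fun p => f (x p)) ↔ ∃ C : ℝ, ∀ X : ℕ, 3 ≤ X →
          κ * Real.log (Real.log X) - C ≤ primeSumQ S (fun p => f (x p)) X)) ∧
    (LogEquidistributed S x μ ↔ HaarTails S x μ) ∧
    (Equidistributed S x μ ↔
      (∀ f ∈ ClassFunctions G, ∃ ρ : ℝ, Tendsto (averageQ S fun p => f (x p)) atTop (𝓝 ρ)) ∧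
      HaarTails S x μ) := by
  refine ⟨fun f hf hf0 => ?_, ?_⟩
  · obtain ⟨C, hC⟩ := bdd_of_continuous hf.1
    have hb : BdQ S (fun p => f (x p)) |C| := fun p _ _ => (hC (x p)).trans (le_abs_self C)
    refine ⟨?_, fun κ hκ => nonneg_iffQ (abs_nonneg C) hb (fun p _ _ => hf0 (x p)) hκ⟩
    filter_upwards [cosSeriesQ_ae (abs_nonneg C) hb] with t ht using ht.2
  · exact equiQ (S := S) x (ClassFunctions G) (fun f hf => bdd_of_continuous hf.1)
      (fun f hf c => class_add hf c) (fun f => ∫ g, f g ∂μ)
      (fun f hf c => integral_add_const' μ hf c) (fun f _ hf0 => integral_nonneg hf0)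

end Pool.Agent.Results.MP_32ceeb_nt.TailExponents
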