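import Pool.Agent.R386.JL.Twist

/-!
# The Sato-Tate conjecture for twists by finite groups of automorphisms

Let `X / K` be a smooth projective variety over a number field, `i` even, and `x_v` the classes of the
Frobenius elements on `V = H^i(X)(i/2)`, taken in `G = U(V)` or in any other compact group that contains
`ST^i(X)` and the finite groups of automorphisms considered.  Let `M / K` be a finite Galois extension with
group `Γ` and `r : Gal(K̄/K) → Γ` the restriction, and let `Γ → Aut(X)` be a homomorphism.  It acts on `V`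
by a homomorphism `ι : Γ → G` that commutes with the Galois action, and the twist `X^r` of `X` has the
classes `x_v * ι (r (Frob_v))`.  (For instance `X = E^n` and `Γ → GL_n(ℤ)`, `X = C^n` and `Γ → S_n`, or `X` a
Fermat variety and `Γ` a group of permutations of the coordinates.)

We show that for every family of pairwise linearly disjoint Galois extensions `M_k / K` with any Galois
groups, the law at the scale `N` of the classes of the twists `X^{r_k}` is within `ε` of the one predicted
by that of `X`, for all `k` but a number of exceptions that is bounded in terms of `ε` and the test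
functions only, with no hypothesis on `X`.  If Q1 holds for `X`, the law of the classes of the twist
is within `ε` of that predicted by Q1, for all `k` but the same number of exceptions.
-/

set_option autoImplicit false

namespace Pool.Agent.Results.MP_32ceeb_nt.TwistsByAutomorphisms

open NumberField IsDedekindDomain Filter Topology MeasureTheory

/-- The average of `φ` over the primes of `K` of norm at most `N`. -/
noncomputable def avg (K : Type) [Field K] [NumberField K] (φ : HeightOneSpectrum (𝓞 K) → ℝ)
    (N : ℕ) : ℝ :=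
  (∑ᶠ v : {v : HeightOneSpectrum (𝓞 K) // Ideal.absNorm v.asIdeal ≤ N}, φ v.1) /
    (Nat.card {v : HeightOneSpectrum (𝓞 K) // Ideal.absNorm v.asIdeal ≤ N} : ℝ)

section
variable {K : Type} [Field K] [NumberField K]

/-- `σ` is a Frobenius element at the prime `v` of `K`: there is a maximal ideal `Q` above `v` of the
ring of all algebraic integers with `σ x ≡ x ^ N(v)` modulo `Q` for all `x`. -/
def IsFrobenius (v : HeightOneSpectrum (𝓞 K)) (σ : Gal(AlgebraicClosure K/K)) : Prop :=
  ∃ Q : Ideal (𝓞 (AlgebraicClosure K)), Q.IsMaximal ∧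
    Q.comap (algebraMap (𝓞 K) (𝓞 (AlgebraicClosure K))) = v.asIdeal ∧
    ∀ x : 𝓞 (AlgebraicClosure K), σ • x - x ^ Ideal.absNorm v.asIdeal ∈ Q

/-- The `r k` are the restrictions to pairwise linearly disjoint finite Galois extensions of `K` with the
Galois groups `Γ k`. -/
structure LinearlyDisjoint {κ : Type} {Γ : κ → Type} [∀ k, Group (Γ k)]
    (r : ∀ k, Gal(AlgebraicClosure K/K) →* Γ k) : Prop where
  surjective : ∀ k, Function.Surjective (r k)
  disjoint : ∀ k l, k ≠ l → Function.Surjective ((r k).prod (r l))
  isOpen_ker : ∀ k, IsOpen ((r k).ker : Set Gal(AlgebraicClosure K/K))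

variable {G : Type} [Group G] {Γ : Type} [Group Γ] [Fintype Γ]

/-- The average of the class function `f` at the scale `N` for the twist of the sequence `x` by the
Galois extension given by `r` and the homomorphism `ι` from its Galois group to `G`. -/
noncomputable def twistAvg (r : Gal(AlgebraicClosure K/K) →* Γ)
    (σ : HeightOneSpectrum (𝓞 K) → Gal(AlgebraicClosure K/K))
    (x : HeightOneSpectrum (𝓞 K) → G) (ι : Γ →* G) (f : G → ℝ) (N : ℕ) : ℝ :=
  avg K (fun v => f (x v * ι (r (σ v)))) N

/-- The average at the scale `N` of the mean value of `f` over the coset `x v * ι Γ`. -/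
noncomputable def cosetAvg (x : HeightOneSpectrum (𝓞 K) → G) (ι : Γ →* G) (f : G → ℝ) (N : ℕ) : ℝ :=
  avg K (fun v => (∑ γ, f (x v * ι γ)) / (Fintype.card Γ : ℝ)) N

end

open Classical in
/-- **Twists by finite groups of automorphisms.**

Let `G` be a compact group, `𝓕` a compact set of continuous class functions on `G` and `ε > 0`.  There
is a number `B` such that for every number field `K`, every finite family of pairwise linearly disjoint
finite Galois extensions `M_k` of `K` with Galois groups `Γ_k`, and all choices `σ_v` of Frobenius elements: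

1. for all large `N`, all sequences `x v` in `G` and all homomorphisms `ι_k : Γ_k → G` whose images commute
with the `x v`, there are at most `B` indices `k` for which the average of some `f ∈ 𝓕` at the scale `N`
over the twist `x v * ι_k (r_k (σ_v))` differs by more than `ε` from that of its mean values over the
cosets `x v * ι_k (Γ_k)`;

2. if the `x v` lie in a subgroup `H` that commutes with the images of the `ι_k`, and are equidistributed
in its conjugacy classes with respect to a probability measure `μ`, in the sense that the averages of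
`f (x v)` tend to `∫ f dμ` for all continuous `f` invariant under conjugation by `H`, then for all large
`N` there are at most `B` indices `k` for which the average of some `f ∈ 𝓕` at the scale `N` over the twist
`x v * ι_k (r_k (σ_v))` differs by more than `ε` from its integral for the image of the product of `μ` and
of the uniform measure of `Γ_k` under `(a, γ) ↦ a * ι_k γ`. -/
theorem result (G : Type) [Group G] [TopologicalSpace G] [IsTopologicalGroup G] [CompactSpace G]
    (𝓕 : Set C(G, ℝ)) (h𝓕 : IsCompact 𝓕) (hcf : ∀ f ∈ 𝓕, ∀ a b, f (b * a * b⁻¹) = f a)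
    (ε : ℝ) (hε : 0 < ε) : ∃ B : ℕ,
    ∀ (K : Type) [Field K] [NumberField K] (κ : Type) [Fintype κ] (Γ : κ → Type)
      [∀ k, Group (Γ k)] [∀ k, Fintype (Γ k)] (r : ∀ k, Gal(AlgebraicClosure K/K) →* Γ k),
      LinearlyDisjoint r →
      ∀ σ : HeightOneSpectrum (𝓞 K) → Gal(AlgebraicClosure K/K), (∀ v, IsFrobenius v (σ v)) →
      (∀ᶠ N : ℕ in atTop, ∀ (x : HeightOneSpectrum (𝓞 K) → G) (ι : ∀ k, Γ k →* G),
        (∀ k γ v, x v * ι k γ = ι k γ * x v) →
        (Finset.univ.filter fun k => ∃ f ∈ 𝓕,
          ε < |twistAvg (r k) σ x (ι k) f N - cosetAvg x (ι k) f N|).card ≤ B) ∧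
      (∀ [MeasurableSpace G] [BorelSpace G] (H : Subgroup G) (μ : Measure G)
        [IsProbabilityMeasure μ] (x : HeightOneSpectrum (𝓞 K) → G) (ι : ∀ k, Γ k →* G),
        (∀ v, x v ∈ H) → (∀ k γ, ∀ h ∈ H, h * ι k γ = ι k γ * h) →
        (∀ f : C(G, ℝ), (∀ b ∈ H, ∀ a, f (b * a * b⁻¹) = f a) →
          Tendsto (avg K fun v => f (x v)) atTop (𝓝 (∫ a, f a ∂μ))) →
        ∀ᶠ N : ℕ in atTop,
        (Finset.univ.filter fun k => ∃ f ∈ 𝓕,
          ε < |twistAvg (r k) σ x (ι k) f N -
            (∑ γ, ∫ a, f (a * ι k γ) ∂μ) / (Fintype.card (Γ k) : ℝ)|).card ≤ B) := by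
  obtain ⟨B, hB⟩ := Pool.Agent.R386.JL.twist_law G 𝓕 h𝓕 hcf (show 0 < ε / 2 by positivity)
  refine ⟨B, fun K _ _ κ _ Γ _ _ r hr σ hσ => ?_⟩
  have h1 := hB K κ Γ r ⟨hr.surjective, hr.disjoint, hr.isOpen_ker⟩ σ hσ
  refine ⟨?_, ?_⟩
  · filter_upwards [h1] with N h1 x ι hcomm
    refine (Finset.card_le_card fun k hk => ?_).trans (h1 x ι hcomm)
    obtain ⟨f, hf, hdev⟩ := (Finset.mem_filter.1 hk).2
    refine Finset.mem_filter.2 ⟨Finset.mem_univ _, f, hf, ?_⟩
    have hdev' : ε < |avg K (fun v => f (x v * ι k (r k (σ v)))) N -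
        avg K (fun v => (∑ γ, f (x v * ι k γ)) / (Fintype.card (Γ k) : ℝ)) N| := hdev
    have : ε / 2 < ε := by linarith
    exact this.trans hdev'
  · intro _ _ H μ _ x ι hxH hcomm hx
    -- the mean values over the cosets
    let P : (k : κ) → C(G, ℝ) → C(G, ℝ) := fun k f =>
      ((Fintype.card (Γ k) : ℝ)⁻¹) • ∑ γ, f.comp ⟨fun a => a * ι k γ, by fun_prop⟩
    have hPapp : ∀ k f a, P k f a = (∑ γ, f (a * ι k γ)) / (Fintype.card (Γ k) : ℝ) := by
      intro k f a
      simp only [P, ContinuousMap.smul_apply, smul_eq_mul]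
      rw [ContinuousMap.sum_apply, div_eq_inv_mul]
      rfl
    have hP : ∀ k, Continuous (P k) := by
      intro k
      have h0 : Continuous fun f : C(G, ℝ) =>
          ∑ γ : Γ k, f.comp (⟨fun a => a * ι k γ, by fun_prop⟩ : C(G, G)) :=
        continuous_finsetSum _ fun γ _ =>
          ContinuousMap.continuous_precomp (⟨fun a => a * ι k γ, by fun_prop⟩ : C(G, G))
      exact h0.const_smul ((Fintype.card (Γ k) : ℝ)⁻¹)
    have h2 : ∀ᶠ N : ℕ in atTop, ∀ k, ∀ F ∈ P k '' 𝓕,
        |avg K (fun v => F (x v)) N - ∫ a, F a ∂μ| ≤ ε / 2 := by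
      rw [Filter.eventually_all]
      intro k
      refine Pool.Agent.R386.JL.unif G (P k '' 𝓕) (h𝓕.image (hP k))
        (show 0 < ε / 2 by positivity) μ x ?_
      rintro _ ⟨f, hf, rfl⟩
      refine hx (P k f) fun b hb a => ?_
      rw [hPapp, hPapp]
      congr 1
      refine Finset.sum_congr rfl fun γ _ => ?_
      have e1 : b * a * b⁻¹ * ι k γ = b * (a * ι k γ) * b⁻¹ := by
        rw [mul_assoc (b * a), hcomm k γ b⁻¹ (H.inv_mem hb), ← mul_assoc, mul_assoc b a]
      rw [e1, hcf f hf]
    filter_upwards [h1, h2] with N h1 h2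
    refine (Finset.card_le_card fun k hk => ?_).trans (h1 x ι fun k γ v => hcomm k γ _ (hxH v))
    obtain ⟨f, hf, hdev⟩ := (Finset.mem_filter.1 hk).2
    refine Finset.mem_filter.2 ⟨Finset.mem_univ _, f, hf, ?_⟩
    have hdev' : ε < |avg K (fun v => f (x v * ι k (r k (σ v)))) N -
        (∑ γ, ∫ a, f (a * ι k γ) ∂μ) / (Fintype.card (Γ k) : ℝ)| := hdev
    have h3 := h2 k (P k f) ⟨f, hf, rfl⟩
    have h4 : (∫ a, P k f a ∂μ) = (∑ γ, ∫ a, f (a * ι k γ) ∂μ) / (Fintype.card (Γ k) : ℝ) := by
      have hint : ∀ h : C(G, ℝ), Integrable h μ := fun h =>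
        h.continuous.integrable_of_hasCompactSupport (HasCompactSupport.of_compactSpace _)
      have e1 : (fun a => P k f a) = fun a => (∑ γ, f (a * ι k γ)) / (Fintype.card (Γ k) : ℝ) := by
        funext a
        exact hPapp k f a
      rw [e1, integral_div, integral_finset_sum]
      intro γ _
      exact hint (f.comp ⟨fun a => a * ι k γ, by fun_prop⟩)
    have h5 : (fun v => P k f (x v)) =
        fun v => (∑ γ, f (x v * ι k γ)) / (Fintype.card (Γ k) : ℝ) := by
      funext v
      exact hPapp k f _
    rw [h4, h5] at h3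
    show ε / 2 < |avg K (fun v => f (x v * ι k (r k (σ v)))) N -
        avg K (fun v => (∑ γ, f (x v * ι k γ)) / (Fintype.card (Γ k) : ℝ)) N|
    set a := avg K (fun v => f (x v * ι k (r k (σ v)))) N
    set b := avg K (fun v => (∑ γ, f (x v * ι k γ)) / (Fintype.card (Γ k) : ℝ)) N
    set c := (∑ γ, ∫ a, f (a * ι k γ) ∂μ) / (Fintype.card (Γ k) : ℝ)
    have h6 : a - c = (a - b) + (b - c) := by ring
    rw [h6] at hdev'
    have h7 := abs_add_le (a - b) (b - c)
    linarith

end Pool.Agent.Results.MP_32ceeb_nt.TwistsByAutomorphisms
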